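import Mathlib
import Pool.Agent.Q192.DrazinFalse

set_option autoImplicit false

namespace Pool.Agent.Results.MP_632fda_an.QOneFails

open Pool.Agent.Q192.Drazin

/-- On a separable infinite-dimensional Hilbert space `H` there are operators `A`, `B` satisfying
the hypotheses of Q1 and (for `p = 1`) an admissible `C` such that `M_C` is not Drazin
invertible. -/
theorem result : ∃ (H : Type) (_ : NormedAddCommGroup H) (_ : InnerProductSpace ℂ H)
    (_ : CompleteSpace H) (_ : TopologicalSpace.SeparableSpace H),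
    ¬ FiniteDimensional ℂ H ∧ ∃ A B C : H →L[ℂ] H,
      LeftDrazin A ∧ dsc B ≠ ⊤ ∧ CondIII A B ∧ asc A ≤ (1 : ℕ) ∧ dsc B ≤ (1 : ℕ) ∧
      CondE A B 1 ∧ Admissible A B 1 C ∧ ¬ DrazinInvertible (MM A B C) := by
  refine ⟨L, inferInstance, inferInstance, inferInstance, separable_L, infinite_L, A, B, C,
    leftDrazin_A, ?_, condIII, ?_, dsc_B, condE, admissible, not_drazin⟩
  · exact (dsc_ne_top_iff B).2 ⟨1, (dsc_le_iff B).1 dsc_B⟩
  · rw [asc_A]
    exact_mod_cast zero_le_one

end Pool.Agent.Results.MP_632fda_an.QOneFails
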