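import Mathlib
import Pool.Agent.Q192.DrazinTrue

set_option autoImplicit false

namespace Pool.Agent.Results.MP_632fda_an.QTwoHolds

open Pool.Agent.Q192.Drazin

universe u v

/-- If `asc A` is finite, `B` is right Drazin invertible, `p ≥ max {1, asc A, dsc B}` and (E)
holds, then `M_C` is Drazin invertible for every admissible `C` (condition (iii) is not needed),
with ascent and descent at most `p`. -/
theorem result (H : Type u) (K : Type v) [NormedAddCommGroup H] [InnerProductSpace ℂ H]
    [CompleteSpace H] [NormedAddCommGroup K] [InnerProductSpace ℂ K] [CompleteSpace K]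
    (A : H →L[ℂ] H) (B : K →L[ℂ] K) (p : ℕ) (hp : 1 ≤ p) (hA : asc A ≤ p) (hB : dsc B ≤ p)
    (hBr : RightDrazin B) (hE : CondE A B p) (C : K →L[ℂ] H) (hC : Admissible A B p C) :
    DrazinInvertible (MM A B C) ∧ asc (MM A B C) ≤ p ∧ dsc (MM A B C) ≤ p := by
  obtain ⟨h1, h2⟩ := drazin hp hA hB hBr hE.1 hC
  exact ⟨⟨ne_top_of_le_ne_top (ENat.natCast_ne_top p) h1,
    ne_top_of_le_ne_top (ENat.natCast_ne_top p) h2⟩, h1, h2⟩

end Pool.Agent.Results.MP_632fda_an.QTwoHolds
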